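import Mathlib

set_option autoImplicit false

namespace Pool.Agent.Helper58.SL2

open Complex ComplexConjugate

/-- global coordinates of the universal cover of `SU(1,1)` -/
@[ext] structure Gt where
  θ : ℝ
  β : ℂ

noncomputable def rho (β : ℂ) : ℝ := Real.exp (Real.log (1 + normSq β) / 2)

theorem rho_pos (β : ℂ) : 0 < rho β := Real.exp_pos _

theorem rho_sq (β : ℂ) : rho β ^ 2 = 1 + normSq β := by
  have h : 0 < 1 + normSq β := by have := normSq_nonneg β; linarith
  unfold rho
  rw [← Real.exp_nat_mul]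
  push_cast
  rw [mul_div_cancel₀ _ (two_ne_zero), Real.exp_log h]

noncomputable def al (a : Gt) : ℂ := (rho a.β : ℂ) * exp (a.θ * I)

theorem norm_al (a : Gt) : ‖al a‖ = rho a.β := by
  unfold al
  rw [norm_mul, Complex.norm_exp_ofReal_mul_I, mul_one, Complex.norm_real,
    Real.norm_of_nonneg (rho_pos _).le]

theorem normSq_al (a : Gt) : normSq (al a) = 1 + normSq a.β := by
  rw [← rho_sq, ← norm_al, Complex.normSq_eq_norm_sq]

theorem al_ne (a : Gt) : al a ≠ 0 := by
  intro h
  have := normSq_al a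
  rw [h, map_zero] at this
  have := normSq_nonneg a.β
  linarith

theorem norm_β_lt (a : Gt) : ‖a.β‖ < ‖al a‖ := by
  have h := normSq_al a
  rw [Complex.normSq_eq_norm_sq, Complex.normSq_eq_norm_sq] at h
  have h1 := norm_nonneg a.β
  have h2 := norm_nonneg (al a)
  nlinarith

theorem re_one_add_pos {w : ℂ} (h : ‖w‖ < 1) : 0 < (1 + w).re := by
  have h1 := Complex.abs_re_le_norm w
  have h2 := (abs_le.1 h1).1
  rw [add_re, one_re]
  linarith

noncomputable def W (a b : Gt) : ℂ := 1 + a.β * conj b.β / (al a * al b)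

theorem norm_quot_lt (a b : Gt) : ‖a.β * conj b.β / (al a * al b)‖ < 1 := by
  have ha := norm_β_lt a
  have hb := norm_β_lt b
  have ha' : 0 < ‖al a‖ := norm_pos_iff.2 (al_ne a)
  have hb' : 0 < ‖al b‖ := norm_pos_iff.2 (al_ne b)
  rw [norm_div, norm_mul, norm_mul, div_lt_one (by positivity), RCLike.norm_conj]
  exact mul_lt_mul'' ha hb (norm_nonneg _) (norm_nonneg _)

theorem W_re_pos (a b : Gt) : 0 < (W a b).re := re_one_add_pos (norm_quot_lt a b)

noncomputable instance : Mul Gt :=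
  ⟨fun a b => ⟨a.θ + b.θ + arg (W a b), al a * b.β + a.β * conj (al b)⟩⟩

instance : One Gt := ⟨⟨0, 0⟩⟩

instance : Inv Gt := ⟨fun a => ⟨-a.θ, -a.β⟩⟩

theorem mul_θ (a b : Gt) : (a * b).θ = a.θ + b.θ + arg (W a b) := rfl
theorem mul_β (a b : Gt) : (a * b).β = al a * b.β + a.β * conj (al b) := rfl
theorem one_θ : (1 : Gt).θ = 0 := rfl
theorem one_β : (1 : Gt).β = 0 := rfl
theorem inv_θ (a : Gt) : (a⁻¹).θ = -a.θ := rfl
theorem inv_β (a : Gt) : (a⁻¹).β = -a.β := rfl

theorem al_mul (a b : Gt) : al (a * b) = al a * al b + a.β * conj b.β := by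
  have hab : al a * al b ≠ 0 := mul_ne_zero (al_ne a) (al_ne b)
  have hW : al a * al b * W a b = al a * al b + a.β * conj b.β := by
    unfold W
    have h1 := al_ne a
    have h2 := al_ne b
    field_simp
  have hn : normSq (al a * al b * W a b) = 1 + normSq (a * b).β := by
    rw [hW, mul_β]
    have h1 := normSq_al a
    have h2 := normSq_al b
    simp only [normSq_apply, add_re, add_im, mul_re, mul_im, conj_re, conj_im] at h1 h2 ⊢
    nlinarith [h1, h2]
  have hWpol : (‖W a b‖ : ℂ) * exp (arg (W a b) * I) = W a b := norm_mul_exp_arg_mul_I _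
  have hrho : rho (a * b).β = rho a.β * rho b.β * ‖W a b‖ := by
    have h3 : rho (a * b).β ^ 2 = (rho a.β * rho b.β * ‖W a b‖) ^ 2 := by
      rw [rho_sq, ← hn, Complex.normSq_eq_norm_sq, norm_mul, norm_mul, norm_al, norm_al]
    exact (pow_left_inj₀ (rho_pos _).le (by have := rho_pos a.β; have := rho_pos b.β; positivity)
      two_ne_zero).1 h3
  rw [← hW, ← hWpol]
  unfold al
  rw [hrho, mul_θ]
  push_cast
  rw [add_mul, add_mul, exp_add, exp_add]
  rw [hWpol]
  conv_rhs => rw [← hWpol]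
  ring

/-- unit vectors -/
noncomputable def e (x : ℝ) : ℂ := exp ((Real.pi * x : ℝ) * I)

noncomputable def M (a : Gt) (z : ℂ) : ℂ := al a * z + a.β * conj z

noncomputable def U (a : Gt) (x : ℝ) : ℂ := 1 + a.β / al a * exp ((-(2 * Real.pi * x) : ℝ) * I)

theorem U_re_pos (a : Gt) (x : ℝ) : 0 < (U a x).re := by
  apply re_one_add_pos
  rw [norm_mul, Complex.norm_exp_ofReal_mul_I, mul_one, norm_div,
    div_lt_one (norm_pos_iff.2 (al_ne a))]
  exact norm_β_lt a

/-- the homeomorphism of the line given by the coordinates -/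
noncomputable def Φ (a : Gt) (x : ℝ) : ℝ := x + (a.θ + arg (U a x)) / Real.pi

theorem M_e (a : Gt) (x : ℝ) : M a (e x) = ((rho a.β * ‖U a x‖ : ℝ) : ℂ) * e (Φ a x) := by
  have h1 : conj (e x) = e x * exp ((-(2 * Real.pi * x) : ℝ) * I) := by
    unfold e
    rw [← exp_conj, ← exp_add]
    congr 1
    simp only [map_mul, conj_I, conj_ofReal]
    push_cast
    ring
  have h2 : M a (e x) = al a * e x * U a x := by
    unfold M U
    rw [h1]
    have := al_ne a
    field_simp
  have h3 : (‖U a x‖ : ℂ) * exp (arg (U a x) * I) = U a x := norm_mul_exp_arg_mul_I _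
  have h4 : e (Φ a x) = e x * exp (a.θ * I) * exp (arg (U a x) * I) := by
    unfold e Φ
    rw [← exp_add, ← exp_add]
    congr 1
    push_cast
    have : (Real.pi : ℂ) ≠ 0 := by exact_mod_cast Real.pi_ne_zero
    field_simp
    ring
  rw [h2, h4]
  conv_lhs => rw [← h3]
  unfold al
  push_cast
  ring

theorem M_mul (a b : Gt) (z : ℂ) : M (a * b) z = M a (M b z) := by
  unfold M
  rw [al_mul, mul_β]
  simp only [map_add, map_mul, conj_conj]
  ring

theorem M_smul (a : Gt) (r : ℝ) (z : ℂ) : M a ((r : ℂ) * z) = (r : ℂ) * M a z := by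
  unfold M
  simp only [map_mul, conj_ofReal]
  ring

theorem norm_e (x : ℝ) : ‖e x‖ = 1 := Complex.norm_exp_ofReal_mul_I _

theorem e_eq {r s : ℝ} (hr : 0 < r) (hs : 0 < s) {x y : ℝ}
    (h : (r : ℂ) * e x = (s : ℂ) * e y) : ∃ n : ℤ, x = y + 2 * n := by
  have h1 := congrArg norm h
  rw [norm_mul, norm_mul, norm_e, norm_e, Complex.norm_real, Complex.norm_real,
    Real.norm_of_nonneg hr.le, Real.norm_of_nonneg hs.le, mul_one, mul_one] at h1
  subst h1
  have h2 : e x = e y := mul_left_cancel₀ (by exact_mod_cast hr.ne') h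
  unfold e at h2
  rw [exp_eq_exp_iff_exists_int] at h2
  obtain ⟨n, hn⟩ := h2
  refine ⟨n, ?_⟩
  have h3 := congrArg Complex.im hn
  simp only [mul_im, ofReal_re, I_im, mul_one, ofReal_im, I_re, mul_zero, add_zero, add_im,
    intCast_re, intCast_im, zero_mul, mul_re] at h3
  have hpi := Real.pi_ne_zero
  have h4 : Real.pi * x = Real.pi * (y + 2 * n) := by
    simpa [mul_comm, mul_left_comm, mul_add, mul_assoc] using h3
  exact mul_left_cancel₀ hpi h4

theorem Φ_mul (a b : Gt) (x : ℝ) : Φ (a * b) x = Φ a (Φ b x) := by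
  have h1 := M_e (a * b) x
  have h2 : M (a * b) (e x) = ((rho b.β * ‖U b x‖ * (rho a.β * ‖U a (Φ b x)‖) : ℝ) : ℂ) *
      e (Φ a (Φ b x)) := by
    rw [M_mul, M_e b x, M_smul, M_e a (Φ b x)]
    push_cast
    ring
  rw [h1] at h2
  have hU : ∀ (a : Gt) (x : ℝ), 0 < ‖U a x‖ := fun a x => by
    rw [norm_pos_iff]
    intro h
    have := U_re_pos a x
    rw [h] at this
    simp at this
  obtain ⟨n, hn⟩ := e_eq (mul_pos (rho_pos _) (hU _ _))
    (mul_pos (mul_pos (rho_pos _) (hU _ _)) (mul_pos (rho_pos _) (hU _ _))) h2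
  have hn0 : n = 0 := by
    have hpi := Real.pi_pos
    have hb : ∀ z : ℂ, 0 < z.re → |arg z| < Real.pi / 2 := fun z hz =>
      abs_arg_lt_pi_div_two_iff.2 (Or.inl hz)
    have A1 := abs_lt.1 (hb _ (U_re_pos b x))
    have A2 := abs_lt.1 (hb _ (U_re_pos a (Φ b x)))
    have A3 := abs_lt.1 (hb _ (W_re_pos a b))
    have A4 := abs_lt.1 (hb _ (U_re_pos (a * b) x))
    have h5 : Φ (a * b) x - Φ a (Φ b x) = (arg (W a b) + arg (U (a * b) x) - arg (U b x)
        - arg (U a (Φ b x))) / Real.pi := by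
      have : Φ a (Φ b x) = x + (b.θ + arg (U b x)) / Real.pi
        + (a.θ + arg (U a (Φ b x))) / Real.pi := rfl
      rw [this]
      unfold Φ
      rw [mul_θ]
      field_simp
      ring
    have h6 : Φ (a * b) x - Φ a (Φ b x) = 2 * n := by rw [hn]; ring
    rw [h6] at h5
    have h7 : 2 * (n : ℝ) * Real.pi = arg (W a b) + arg (U (a * b) x) - arg (U b x)
        - arg (U a (Φ b x)) := by
      rw [h5]; field_simp
    have h8 : (n : ℝ) < 1 := by nlinarith
    have h9 : (-1 : ℝ) < n := by nlinarith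
    have h10 : n < 1 := by exact_mod_cast h8
    have h11 : -1 < n := by exact_mod_cast h9
    omega
  rw [hn, hn0]
  simp

theorem inv_mul' (a : Gt) : a⁻¹ * a = 1 := by
  have hal : al a⁻¹ = conj (al a) := by
    unfold al
    rw [inv_θ, inv_β, map_mul, conj_ofReal, ← exp_conj]
    congr 2
    · unfold rho; rw [normSq_neg]
    · simp
  ext
  · rw [mul_θ, inv_θ, one_θ]
    have : arg (W a⁻¹ a) = 0 := by
      have h1 : W a⁻¹ a = ((1 - normSq a.β / normSq (al a) : ℝ) : ℂ) := by
        unfold W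
        rw [hal, inv_β]
        have h2 : conj (al a) * al a = (normSq (al a) : ℂ) := by
          rw [mul_comm, mul_conj]
        have h3 : -a.β * conj a.β = -(normSq a.β : ℂ) := by rw [neg_mul, mul_conj]
        rw [h2, h3]
        push_cast
        ring
      rw [h1]
      apply arg_ofReal_of_nonneg
      rw [sub_nonneg, div_le_one (by rw [normSq_al]; have := normSq_nonneg a.β; linarith)]
      rw [normSq_al]; linarith
    rw [this]; ring
  · have : (a⁻¹ * a).β = 0 := by
      rw [mul_β, hal, inv_β]; ring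
    rw [this]; rfl

theorem al_one : al 1 = 1 := by
  unfold al rho; rw [one_θ, one_β]; simp

theorem Φ_one (x : ℝ) : Φ 1 x = x := by
  unfold Φ U
  rw [one_θ, one_β]
  simp

theorem M_one (z : ℂ) : M 1 z = z := by
  unfold M; rw [al_one, one_β]; simp

theorem inv_inv' (a : Gt) : (a⁻¹)⁻¹ = a := by
  ext <;> simp [inv_θ, inv_β]

theorem mul_inv' (a : Gt) : a * a⁻¹ = 1 := by
  have := inv_mul' a⁻¹
  rwa [inv_inv'] at this

theorem eq_one_of_Φ {c : Gt} (h : ∀ x, Φ c x = x) : c = 1 := by
  have hpi := Real.pi_pos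
  -- `arg (U c x) = -θ` for all `x`
  have h1 : ∀ x, arg (U c x) = -c.θ := by
    intro x
    have := h x
    unfold Φ at this
    have h2 : (c.θ + arg (U c x)) / Real.pi = 0 := by linarith
    rw [div_eq_zero_iff] at h2
    rcases h2 with h2 | h2
    · linarith
    · exact absurd h2 hpi.ne'
  set κ : ℂ := c.β / al c with hκ
  have hU0 : U c 0 = 1 + κ := by unfold U; simp [hκ]
  have hU1 : U c (1 / 2) = 1 - κ := by
    unfold U
    have : exp ((-(2 * Real.pi * (1 / 2)) : ℝ) * I) = -1 := by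
      rw [show ((-(2 * Real.pi * (1 / 2)) : ℝ) : ℂ) * I = -(Real.pi * I) by push_cast; ring,
        exp_neg, exp_pi_mul_I]
      norm_num
    rw [this, ← hκ]; ring
  have hU2 : U c (1 / 4) = 1 - κ * I := by
    unfold U
    have : exp ((-(2 * Real.pi * (1 / 4)) : ℝ) * I) = -I := by
      rw [show ((-(2 * Real.pi * (1 / 4)) : ℝ) : ℂ) * I = -(Real.pi / 2 * I) by push_cast; ring,
        exp_neg, exp_pi_div_two_mul_I, inv_I]
    rw [this, ← hκ]; ring
  have hU3 : U c (3 / 4) = 1 + κ * I := by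
    unfold U
    have : exp ((-(2 * Real.pi * (3 / 4)) : ℝ) * I) = I := by
      rw [show ((-(2 * Real.pi * (3 / 4)) : ℝ) : ℂ) * I = Real.pi / 2 * I - 2 * Real.pi * I by
        push_cast; ring, exp_sub, exp_pi_div_two_mul_I, exp_two_pi_mul_I, div_one]
    rw [this, ← hκ]
  -- all these have the same direction
  have hdir : ∀ x, ∃ r : ℝ, 0 < r ∧ U c x = (r : ℂ) * exp ((-c.θ : ℝ) * I) := by
    intro x
    refine ⟨‖U c x‖, ?_, ?_⟩
    · rw [norm_pos_iff]
      intro h
      have := U_re_pos c x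
      rw [h] at this
      simp at this
    · rw [← h1 x]; exact (norm_mul_exp_arg_mul_I _).symm
  obtain ⟨r0, hr0, h0⟩ := hdir 0
  obtain ⟨r1, hr1, h1'⟩ := hdir (1 / 2)
  obtain ⟨r2, hr2, h2'⟩ := hdir (1 / 4)
  obtain ⟨r3, hr3, h3'⟩ := hdir (3 / 4)
  rw [hU0] at h0
  rw [hU1] at h1'
  rw [hU2] at h2'
  rw [hU3] at h3'
  set E : ℂ := exp ((-c.θ : ℝ) * I) with hE
  have hEn : ‖E‖ = 1 := Complex.norm_exp_ofReal_mul_I _
  have hsum : (2 : ℂ) = ((r0 + r1 : ℝ) : ℂ) * E := by
    push_cast
    rw [add_mul, ← h0, ← h1']; ring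
  have hr01 : r0 + r1 = 2 := by
    have := congrArg norm hsum
    rw [norm_mul, hEn, mul_one, Complex.norm_real, Real.norm_of_nonneg (by linarith)] at this
    simpa using this.symm
  have hE1 : E = 1 := by
    rw [hr01] at hsum
    push_cast at hsum
    have h2 : (2 : ℂ) ≠ 0 := two_ne_zero
    have : (2 : ℂ) * E = 2 * 1 := by rw [← hsum]; ring
    exact mul_left_cancel₀ h2 this
  rw [hE1, mul_one] at h0 h2' h3'
  have hκre : κ.im = 0 := by
    have := congrArg Complex.im h0
    simpa using this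
  have hκim : κ.re = 0 := by
    have := congrArg Complex.im h3'
    simpa using this
  have hκ0 : κ = 0 := Complex.ext hκim hκre
  have hβ : c.β = 0 := by
    have := div_eq_zero_iff.1 (hκ ▸ hκ0 : c.β / al c = 0)
    exact this.resolve_right (al_ne c)
  have hθ : c.θ = 0 := by
    have := h1 0
    rw [hU0, hκ0] at this
    simp at this
    exact this
  ext
  · rw [hθ]; rfl
  · rw [hβ]; rfl

theorem Φ_injective : Function.Injective Φ := by
  intro a b h
  have h1 : ∀ x, Φ (b⁻¹ * a) x = x := by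
    intro x
    rw [Φ_mul, h, ← Φ_mul, inv_mul', Φ_one]
  have h2 := eq_one_of_Φ h1
  have h3 : ∀ z, M a z = M b z := by
    intro z
    have h4 : M (b⁻¹) (M a z) = z := by rw [← M_mul, h2, M_one]
    have h5 : M b (M (b⁻¹) (M a z)) = M a z := by rw [← M_mul, mul_inv', M_one]
    rw [← h5, h4]
  have hM1 := h3 1
  have hMI := h3 I
  unfold M at hM1 hMI
  simp only [map_one, mul_one, conj_I] at hM1 hMI
  have hal : al a = al b := by
    have h6 : al a - a.β = al b - b.β := by
      have h7 : (al a - a.β) * I = (al b - b.β) * I := by linear_combination hMI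
      exact mul_right_cancel₀ I_ne_zero h7
    linear_combination (1 / 2 : ℂ) * hM1 + (1 / 2 : ℂ) * h6
  have hβ : a.β = b.β := by linear_combination hM1 - hal
  have hθ : a.θ = b.θ := by
    have h8 := congrFun h 0
    unfold Φ U at h8
    rw [hal, hβ] at h8
    have hpi := Real.pi_ne_zero
    field_simp at h8
    linarith
  ext
  · exact hθ
  · rw [hβ]

noncomputable instance : Group Gt where
  mul_assoc a b c := by
    apply Φ_injective
    funext x
    simp only [Φ_mul]
  one_mul a := by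
    apply Φ_injective
    funext x
    rw [Φ_mul, Φ_one]
  mul_one a := by
    apply Φ_injective
    funext x
    rw [Φ_mul, Φ_one]
  inv_mul_cancel := inv_mul'

end Pool.Agent.Helper58.SL2
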