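import Mathlib
import Pool.Agent.Helper58.SL2a
import Pool.Agent.Helper58.Main

set_option autoImplicit false

namespace Pool.Agent.Helper58.SL2

open Complex ComplexConjugate Topology

section analytic

variable {E : Type*} [NormedAddCommGroup E] [NormedSpace ℝ E] {z : E}

theorem an_ofReal {f : E → ℝ} (h : AnalyticAt ℝ f z) : AnalyticAt ℝ (fun z => (f z : ℂ)) z :=
  (Complex.ofRealCLM.analyticAt _).fun_comp h

theorem an_re {f : E → ℂ} (h : AnalyticAt ℝ f z) : AnalyticAt ℝ (fun z => (f z).re) z :=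
  (Complex.reCLM.analyticAt _).fun_comp h

theorem an_im {f : E → ℂ} (h : AnalyticAt ℝ f z) : AnalyticAt ℝ (fun z => (f z).im) z :=
  (Complex.imCLM.analyticAt _).fun_comp h

theorem an_conj {f : E → ℂ} (h : AnalyticAt ℝ f z) : AnalyticAt ℝ (fun z => conj (f z)) z :=
  ((Complex.conjCLE : ℂ →L[ℝ] ℂ).analyticAt _).fun_comp h

theorem an_exp {f : E → ℂ} (h : AnalyticAt ℝ f z) : AnalyticAt ℝ (fun z => exp (f z)) z :=
  (analyticAt_cexp.restrictScalars (𝕜 := ℝ)).fun_comp h

theorem an_arg {f : E → ℂ} (h : AnalyticAt ℝ f z) (h0 : f z ∈ slitPlane) :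
    AnalyticAt ℝ (fun z => arg (f z)) z := by
  have h1 : AnalyticAt ℝ (fun z => (log (f z)).im) z :=
    an_im (((analyticAt_clog h0).restrictScalars (𝕜 := ℝ)).fun_comp h)
  exact h1.congr (Filter.Eventually.of_forall fun w => log_im _)

theorem an_rho {β : E → ℂ} (hβ : AnalyticAt ℝ β z) : AnalyticAt ℝ (fun z => rho (β z)) z := by
  unfold rho
  have h1 : AnalyticAt ℝ (fun z => 1 + normSq (β z)) z := by
    simp only [normSq_apply]
    exact analyticAt_const.add (((an_re hβ).mul (an_re hβ)).add ((an_im hβ).mul (an_im hβ)))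
  have h2 : 0 < 1 + normSq (β z) := by have := normSq_nonneg (β z); linarith
  have h3 : AnalyticAt ℝ (fun z => Real.log (1 + normSq (β z))) z :=
    AnalyticAt.fun_comp (f := fun z => 1 + normSq (β z)) (analyticAt_log h2) h1
  exact analyticAt_rexp.fun_comp (h3.div analyticAt_const two_ne_zero)

theorem an_al {a : E → Gt} (hθ : AnalyticAt ℝ (fun z => (a z).θ) z)
    (hβ : AnalyticAt ℝ (fun z => (a z).β) z) : AnalyticAt ℝ (fun z => al (a z)) z := by
  unfold al
  exact (an_ofReal (an_rho hβ)).mul (an_exp ((an_ofReal hθ).mul analyticAt_const))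

theorem an_mul_β {a b : E → Gt} (haθ : AnalyticAt ℝ (fun z => (a z).θ) z)
    (haβ : AnalyticAt ℝ (fun z => (a z).β) z) (hbθ : AnalyticAt ℝ (fun z => (b z).θ) z)
    (hbβ : AnalyticAt ℝ (fun z => (b z).β) z) : AnalyticAt ℝ (fun z => (a z * b z).β) z := by
  simp only [mul_β]
  exact ((an_al haθ haβ).mul hbβ).add (haβ.mul (an_conj (an_al hbθ hbβ)))

theorem an_mul_θ {a b : E → Gt} (haθ : AnalyticAt ℝ (fun z => (a z).θ) z)
    (haβ : AnalyticAt ℝ (fun z => (a z).β) z) (hbθ : AnalyticAt ℝ (fun z => (b z).θ) z)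
    (hbβ : AnalyticAt ℝ (fun z => (b z).β) z) : AnalyticAt ℝ (fun z => (a z * b z).θ) z := by
  simp only [mul_θ]
  refine (haθ.add hbθ).add (an_arg ?_ (Or.inl (W_re_pos _ _)))
  unfold W
  exact analyticAt_const.add ((haβ.mul (an_conj hbβ)).div ((an_al haθ haβ).mul (an_al hbθ hbβ))
    (mul_ne_zero (al_ne _) (al_ne _)))

end analytic

/-- real coordinates -/
def toF (a : Gt) : Fin 3 → ℝ := ![a.θ, a.β.re, a.β.im]

def ofF (y : Fin 3 → ℝ) : Gt := ⟨y 0, ⟨y 1, y 2⟩⟩

theorem ofF_toF (a : Gt) : ofF (toF a) = a := by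
  ext <;> simp [ofF, toF]

theorem toF_ofF (y : Fin 3 → ℝ) : toF (ofF y) = y := by
  funext i
  fin_cases i <;> simp [ofF, toF]

def eqv : Gt ≃ (Fin 3 → ℝ) := ⟨toF, ofF, ofF_toF, toF_ofF⟩

instance : TopologicalSpace Gt := TopologicalSpace.induced toF inferInstance

def homeo : Gt ≃ₜ (Fin 3 → ℝ) := eqv.toHomeomorphOfIsInducing ⟨rfl⟩

theorem homeo_apply (a : Gt) : homeo a = toF a := rfl

theorem homeo_symm_apply (y : Fin 3 → ℝ) : homeo.symm y = ofF y := rfl

instance : T2Space Gt := homeo.symm.t2Space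

theorem an_proj {n : ℕ} {p : Fin n → ℝ} (i : Fin n) : AnalyticAt ℝ (fun z : Fin n → ℝ => z i) p :=
  (ContinuousLinearMap.proj (R := ℝ) (φ := fun _ : Fin n => ℝ) i).analyticAt _

theorem an_cplx {n : ℕ} {p : Fin n → ℝ} (i j : Fin n) :
    AnalyticAt ℝ (fun z : Fin n → ℝ => (⟨z i, z j⟩ : ℂ)) p := by
  have : (fun z : Fin n → ℝ => (⟨z i, z j⟩ : ℂ)) = fun z => (z i : ℂ) + (z j : ℂ) * I := by
    funext z
    apply Complex.ext <;> simp
  rw [this]
  exact (an_ofReal (an_proj i)).add ((an_ofReal (an_proj j)).mul analyticAt_const)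

theorem an_toF {E : Type*} [NormedAddCommGroup E] [NormedSpace ℝ E] {z : E} {a : E → Gt}
    (hθ : AnalyticAt ℝ (fun z => (a z).θ) z) (hβ : AnalyticAt ℝ (fun z => (a z).β) z)
    (i : Fin 3) : AnalyticAt ℝ (fun z => toF (a z) i) z := by
  fin_cases i
  · exact hθ
  · exact an_re hβ
  · exact an_im hβ

theorem div_eq (a b : Gt) : a / b = a * b⁻¹ := div_eq_mul_inv a b

/-- the division is analytic -/
theorem an_div (p : Fin (3 + 3) → ℝ) (i : Fin 3) :
    AnalyticAt ℝ (fun z : Fin (3 + 3) → ℝ =>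
      toF (ofF (fun i => z (Fin.castAdd 3 i)) / ofF (fun i => z (Fin.natAdd 3 i))) i) p := by
  have h1 : AnalyticAt ℝ (fun z : Fin (3 + 3) → ℝ => (ofF (fun i => z (Fin.castAdd 3 i))).θ) p :=
    an_proj _
  have h2 : AnalyticAt ℝ (fun z : Fin (3 + 3) → ℝ => (ofF (fun i => z (Fin.castAdd 3 i))).β) p :=
    an_cplx _ _
  have h3 : AnalyticAt ℝ (fun z : Fin (3 + 3) → ℝ =>
      ((ofF (fun i => z (Fin.natAdd 3 i)))⁻¹).θ) p := (an_proj _).neg
  have h4 : AnalyticAt ℝ (fun z : Fin (3 + 3) → ℝ =>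
      ((ofF (fun i => z (Fin.natAdd 3 i)))⁻¹).β) p := (an_cplx _ _).neg
  simp only [div_eq]
  exact an_toF (an_mul_θ h1 h2 h3 h4) (an_mul_β h1 h2 h3 h4) i

theorem continuous_div' : Continuous (fun p : Gt × Gt => p.1 / p.2) := by
  have h1 : Continuous (fun z : Fin (3 + 3) → ℝ =>
      toF (ofF (fun i => z (Fin.castAdd 3 i)) / ofF (fun i => z (Fin.natAdd 3 i)))) :=
    continuous_pi fun i => continuous_iff_continuousAt.2 fun p => (an_div p i).continuousAt
  have h2 : Continuous (fun p : Gt × Gt => (Fin.append (toF p.1) (toF p.2) : Fin (3 + 3) → ℝ)) := by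
    refine continuous_pi fun i => ?_
    have ht : Continuous toF := homeo.continuous
    refine Fin.addCases (fun i => ?_) (fun i => ?_) i
    · simp only [Fin.append_left]
      exact (continuous_apply i).comp (ht.comp continuous_fst)
    · simp only [Fin.append_right]
      exact (continuous_apply i).comp (ht.comp continuous_snd)
  have h3 := h1.comp h2
  rw [continuous_induced_rng]
  refine h3.congr fun p => ?_
  simp only [Function.comp_apply, Fin.append_left, Fin.append_right]
  show toF (ofF (toF p.1) / ofF (toF p.2)) = toF (p.1 / p.2)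
  rw [ofF_toF, ofF_toF]

instance : IsTopologicalGroup Gt where
  continuous_inv := by
    have : Continuous (fun a : Gt => (1 : Gt) / a) :=
      continuous_div'.comp (continuous_const.prodMk continuous_id)
    simpa using this
  continuous_mul := by
    have hinv : Continuous (fun a : Gt => a⁻¹) := by
      have : Continuous (fun a : Gt => (1 : Gt) / a) :=
        continuous_div'.comp (continuous_const.prodMk continuous_id)
      simpa using this
    have : Continuous (fun p : Gt × Gt => p.1 / p.2⁻¹) :=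
      continuous_div'.comp (continuous_fst.prodMk (hinv.comp continuous_snd))
    simpa using this

/-- the analytic atlas with one chart -/
noncomputable def atlas : AnAtlas Gt 3 where
  J := Unit
  countable := inferInstance
  φ := fun _ => homeo.toOpenPartialHomeomorph
  cover := fun g => ⟨(), Set.mem_univ _⟩
  ana := by
    intro j₁ j₂ j₃ p _ _ _ i
    exact an_div p i

theorem exists_embedding_Gt : ∃ f : Gt →* Equiv.Perm ℕ, Function.Injective f :=
  exists_embedding_of_anAtlas atlas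

/-- every element of the frozen set comes from `Gt` -/
theorem exists_of_mem {f : ℝ → ℝ} (hf : Continuous f)
    (hM : ∃ M : Matrix (Fin 2) (Fin 2) ℝ, M.det = 1 ∧
          ∀ x : ℝ,
            (M.mulVec ![Real.cos (Real.pi * x), Real.sin (Real.pi * x)]) 0
                * Real.sin (Real.pi * f x)
              - (M.mulVec ![Real.cos (Real.pi * x), Real.sin (Real.pi * x)]) 1
                * Real.cos (Real.pi * f x) = 0) : ∃ a : Gt, Φ a = f := by
  obtain ⟨M, hdet, hM⟩ := hM
  set α : ℂ := ⟨(M 0 0 + M 1 1) / 2, (M 1 0 - M 0 1) / 2⟩ with hα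
  set β : ℂ := ⟨(M 0 0 - M 1 1) / 2, (M 1 0 + M 0 1) / 2⟩ with hβ
  have hdet' : M 0 0 * M 1 1 - M 0 1 * M 1 0 = 1 := by
    rw [← hdet, Matrix.det_fin_two]
  have hnorm : normSq α = 1 + normSq β := by
    simp only [hα, hβ, normSq_apply]
    nlinarith [hdet']
  set a0 : Gt := ⟨arg α, β⟩ with ha0
  have hal0 : al a0 = α := by
    unfold al
    have h1 : rho a0.β = ‖α‖ := by
      have h2 : rho a0.β ^ 2 = ‖α‖ ^ 2 := by
        rw [rho_sq, ← Complex.normSq_eq_norm_sq, hnorm]
      exact (pow_left_inj₀ (rho_pos _).le (norm_nonneg _) two_ne_zero).1 h2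
    rw [h1]
    exact norm_mul_exp_arg_mul_I α
  -- the integer valued difference
  have hint : ∀ x, ∃ n : ℤ, f x - Φ a0 x = n := by
    intro x
    have h1 := M_e a0 x
    have hr : 0 < rho a0.β * ‖U a0 x‖ := by
      refine mul_pos (rho_pos _) ?_
      rw [norm_pos_iff]
      intro h
      have := U_re_pos a0 x
      rw [h] at this
      simp at this
    set r := rho a0.β * ‖U a0 x‖ with hrdef
    have he : ∀ y : ℝ, e y = ⟨Real.cos (Real.pi * y), Real.sin (Real.pi * y)⟩ := by
      intro y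
      unfold e
      apply Complex.ext
      · rw [exp_ofReal_mul_I_re]
      · rw [exp_ofReal_mul_I_im]
    have hMe : SL2.M a0 (e x) =
        ⟨M 0 0 * Real.cos (Real.pi * x) + M 0 1 * Real.sin (Real.pi * x),
          M 1 0 * Real.cos (Real.pi * x) + M 1 1 * Real.sin (Real.pi * x)⟩ := by
      unfold SL2.M
      rw [hal0, he]
      apply Complex.ext
      · simp only [hα, hβ, ha0, add_re, mul_re, conj_re, conj_im]
        ring
      · simp only [hα, hβ, ha0, add_im, mul_im, conj_re, conj_im]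
        ring
    rw [hMe, he] at h1
    have h2 := congrArg Complex.re h1
    have h3 := congrArg Complex.im h1
    simp only [mul_re, mul_im, ofReal_re, ofReal_im, zero_mul, sub_zero, add_zero] at h2 h3
    have h4 := hM x
    have h5 : (M.mulVec ![Real.cos (Real.pi * x), Real.sin (Real.pi * x)]) 0 =
        M 0 0 * Real.cos (Real.pi * x) + M 0 1 * Real.sin (Real.pi * x) := by
      simp [Matrix.mulVec, dotProduct, Fin.sum_univ_two]
    have h6 : (M.mulVec ![Real.cos (Real.pi * x), Real.sin (Real.pi * x)]) 1 =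
        M 1 0 * Real.cos (Real.pi * x) + M 1 1 * Real.sin (Real.pi * x) := by
      simp [Matrix.mulVec, dotProduct, Fin.sum_univ_two]
    rw [h5, h6, h2, h3] at h4
    have h7 : r * Real.sin (Real.pi * f x - Real.pi * Φ a0 x) = 0 := by
      rw [Real.sin_sub]
      linarith
    have h8 : Real.sin (Real.pi * f x - Real.pi * Φ a0 x) = 0 :=
      (mul_eq_zero.1 h7).resolve_left hr.ne'
    rw [Real.sin_eq_zero_iff] at h8
    obtain ⟨n, hn⟩ := h8
    refine ⟨n, ?_⟩
    have hpi := Real.pi_ne_zero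
    have h9 : Real.pi * (f x - Φ a0 x) = Real.pi * n := by linarith
    exact mul_left_cancel₀ hpi h9
  -- continuity of `Φ a0`
  have hcont : Continuous (Φ a0) := by
    unfold Φ
    refine continuous_id.add ((continuous_const.add ?_).div_const _)
    rw [continuous_iff_continuousAt]
    intro x
    have h1 : ContinuousAt (U a0) x := by
      unfold U
      fun_prop
    exact ContinuousAt.comp (g := arg) (continuousAt_arg (Or.inl (U_re_pos a0 x))) h1
  obtain ⟨n, hn⟩ : ∃ n : ℤ, ∀ x, f x - Φ a0 x = n := by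
    choose k hk using hint
    have hkc : Continuous (fun x => ((k x : ℤ) : ℝ)) := by
      have : (fun x => ((k x : ℤ) : ℝ)) = fun x => f x - Φ a0 x := by
        funext x; exact (hk x).symm
      rw [this]; exact hf.sub hcont
    have hkc' : Continuous k := Int.isClosedEmbedding_coe_real.isInducing.continuous_iff.2 hkc
    refine ⟨k 0, fun x => ?_⟩
    rw [hk x]
    congr 1
    exact PreconnectedSpace.constant inferInstance hkc'
  -- adjust by the integer
  refine ⟨⟨arg α + Real.pi * n, ((-1 : ℂ) ^ n) * β⟩, ?_⟩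
  set a1 : Gt := ⟨arg α + Real.pi * n, ((-1 : ℂ) ^ n) * β⟩ with ha1
  have hpow : (-1 : ℂ) ^ n ≠ 0 := zpow_ne_zero _ (by norm_num)
  have hpown : ‖(-1 : ℂ) ^ n‖ = 1 := by rw [norm_zpow]; simp
  have hexp : exp ((Real.pi * n : ℝ) * I) = (-1 : ℂ) ^ n := by
    rw [← exp_pi_mul_I, ← exp_int_mul]
    congr 1
    push_cast
    ring
  have hal1 : al a1 = (-1 : ℂ) ^ n * al a0 := by
    unfold al
    have h1 : rho a1.β = rho a0.β := by
      unfold rho
      congr 4
      rw [Complex.normSq_eq_norm_sq, Complex.normSq_eq_norm_sq]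
      show ‖(-1 : ℂ) ^ n * β‖ ^ 2 = ‖β‖ ^ 2
      rw [norm_mul, hpown, one_mul]
    rw [h1]
    show (rho a0.β : ℂ) * exp ((arg α + Real.pi * n : ℝ) * I) = _
    rw [ofReal_add, add_mul, exp_add, hexp]
    show _ = (-1 : ℂ) ^ n * ((rho a0.β : ℂ) * exp (arg α * I))
    ring
  funext x
  have hU : U a1 x = U a0 x := by
    unfold U
    congr 2
    rw [hal1]
    show (-1 : ℂ) ^ n * β / ((-1 : ℂ) ^ n * al a0) = β / al a0
    rw [mul_div_mul_left _ _ hpow]
  have h1 : Φ a1 x = Φ a0 x + n := by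
    unfold Φ
    rw [hU]
    show x + (arg α + Real.pi * n + arg (U a0 x)) / Real.pi = x + (arg α + arg (U a0 x)) / Real.pi + n
    have hpi := Real.pi_ne_zero
    field_simp
    ring
  rw [h1, ← hn x]
  ring

end Pool.Agent.Helper58.SL2
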